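import Pool.Agent.H296Z.EDPDefs
import Pool.Agent.H296Z.EDP

set_option autoImplicit false

namespace Pool.Agent.Results.MP_726576_nt.PowTwoBad

open Pool.Agent.H296Z.EDP

/-- The set `{2ⁿ + 1}` is bad for the Erdős discrepancy problem. -/
theorem result : Bad {k | ∃ n : ℕ, 1 ≤ n ∧ k = 2 ^ n + 1} := by
  refine ⟨b, fun m _ => b_norm m, 21, fun d n hd => ?_⟩
  refine bad_of _ (fun j => 2 ^ (j + 1) + 1) ?_ (fun j => Nat.le_add_left _ _) ?_ b (fun m _ => b_norm m)
    (fun m n hm hn => b_mul m n (by omega) (by omega)) 21 pow_bound d n hd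
  · refine strictMono_nat_of_lt_succ fun j => ?_
    exact Nat.succ_lt_succ (Nat.pow_lt_pow_right (by norm_num) (by omega))
  · intro k _
    constructor
    · rintro ⟨n, hn, rfl⟩
      exact ⟨n - 1, by rw [Nat.sub_add_cancel hn]⟩
    · rintro ⟨j, rfl⟩
      exact ⟨j + 1, by omega, rfl⟩

end Pool.Agent.Results.MP_726576_nt.PowTwoBad
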