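import Pool.Agent.H296Z.EDPDefs
import Pool.Agent.H296Z.EDP

set_option autoImplicit false

namespace Pool.Agent.Results.MP_726576_nt.SquaresBad

open Pool.Agent.H296Z.EDP

/-- The sets `{n² + 1}` and `{n² - 1}` are both bad for the Erdős discrepancy problem. -/
theorem result :
    Bad {k | ∃ n : ℕ, 1 ≤ n ∧ k = n ^ 2 + 1} ∧ Bad {k | ∃ n : ℕ, 1 ≤ n ∧ k + 1 = n ^ 2} := by
  refine ⟨⟨fun m => (a m : ℂ), a_norm, 8, fun d n hd => ?_⟩,
    ⟨fun m => (a m : ℂ), a_norm, 33, fun d n hd => ?_⟩⟩
  · refine bad_of _ (fun j => (j + 1) ^ 2 + 1) ?_ (fun j => by omega) ?_ (fun m => (a m : ℂ))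
      a_norm (fun m n _ _ => by rw [a_mul]; push_cast; rfl) 8 plus_bound d n hd
    · refine strictMono_nat_of_lt_succ fun j => ?_
      exact Nat.succ_lt_succ (Nat.pow_lt_pow_left (by omega) (by norm_num))
    · intro k _
      constructor
      · rintro ⟨n, hn, rfl⟩
        exact ⟨n - 1, by rw [Nat.sub_add_cancel hn]⟩
      · rintro ⟨j, rfl⟩
        exact ⟨j + 1, by omega, rfl⟩
  · have e : ∀ j : ℕ, (j + 2) ^ 2 = j ^ 2 + 4 * j + 4 := fun j => by ring
    refine bad_of _ (fun j => (j + 2) ^ 2 - 1) ?_ (fun j => by have := e j; omega) ?_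
      (fun m => (a m : ℂ)) a_norm (fun m n _ _ => by rw [a_mul]; push_cast; rfl) 33 minus_bound
      d n hd
    · refine strictMono_nat_of_lt_succ fun j => ?_
      have h1 := e j
      have h2 : (j + 1 + 2) ^ 2 = j ^ 2 + 6 * j + 9 := by ring
      omega
    · intro k hk
      constructor
      · rintro ⟨n, hn, h⟩
        have h2 : 2 ≤ n := by
          by_contra h3
          have : n = 1 := by omega
          subst this
          omega
        exact ⟨n - 2, by rw [Nat.sub_add_cancel h2]; omega⟩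
      · rintro ⟨j, rfl⟩
        exact ⟨j + 2, by omega, by have := e j; omega⟩

end Pool.Agent.Results.MP_726576_nt.SquaresBad
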